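import Mathlib
import Pool.Agent.R269.Comb

/-!
# The Schur property of a combinatorial space does not imply property (S*)

Let `n`-th block consist of all subsets of `{0, …, 2n+1}` with at least `n + 1` elements. The members
of the family are the finite sets contained in one block and the finite sets `B` for which there is
a choice `c` of labels such that `c n ∈ i` for each point `i ∈ B` of the `n`-th block. Every
probability measure on a block gives mass at least `1/2` to `{i : j ∈ i}` for some label `j`, while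
`n + 1` labels are not enough to cover the `n`-th block.
-/

set_option autoImplicit false

open Filter Topology

namespace Pool.Agent.Results.MP_8d662a_an.SchurNotSStar

open Pool.Agent.R269.Comb

/-- Property (S*): for every sequence of pairwise disjoint members of the family there are finitely
many sets in the closure of the family whose union contains infinitely many members of the
sequence. -/
def PropertySStar (F : HereditaryCover) : Prop :=
  ∀ G : ℕ → Finset ℕ, (∀ n, G n ∈ F.sets) → (∀ m n, m ≠ n → Disjoint (G m) (G n)) →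
    ∃ 𝒜 : Finset (Set ℕ), (∀ A ∈ 𝒜, A ∈ F.closure) ∧
      {n : ℕ | (G n : Set ℕ) ⊆ ⋃ A ∈ 𝒜, A}.Infinite

/-! ### The family -/

/-- The points: pairs of a block number `n` and a subset of `{0, …, 2n+1}` with at least `n + 1`
elements. -/
abbrev Pt : Type := {p : ℕ × Finset ℕ // p.2 ⊆ Finset.range (2 * p.1 + 2) ∧ p.1 + 1 ≤ p.2.card}

instance : Countable Pt := Subtype.countable

/-- the point of block `n` which is the whole set of labels -/
def Pt.top (n : ℕ) : Pt := ⟨(n, Finset.range (2 * n + 2)), subset_rfl, by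
  rw [Finset.card_range]; omega⟩

instance : Infinite Pt := Infinite.of_injective Pt.top (by
  intro m n h
  exact congrArg (fun p : Pt => p.1.1) h)

/-- an enumeration of the points -/
noncomputable def enum : ℕ ≃ Pt := Classical.choice nonempty_equiv_of_countable

/-- the block of a point -/
noncomputable def blk (i : ℕ) : ℕ := (enum i).1.1

/-- the set of labels of a point -/
noncomputable def lab (i : ℕ) : Finset ℕ := (enum i).1.2

theorem lab_subset (i : ℕ) : lab i ⊆ Finset.range (2 * blk i + 2) := (enum i).2.1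

theorem lab_card (i : ℕ) : blk i + 1 ≤ (lab i).card := (enum i).2.2

theorem exists_pt (n : ℕ) (S : Finset ℕ) (h1 : S ⊆ Finset.range (2 * n + 2))
    (h2 : n + 1 ≤ S.card) : ∃ i, blk i = n ∧ lab i = S := by
  refine ⟨enum.symm ⟨(n, S), h1, h2⟩, ?_, ?_⟩
  · unfold blk; rw [Equiv.apply_symm_apply]
  · unfold lab; rw [Equiv.apply_symm_apply]

theorem blk_finite (n : ℕ) : {i | blk i = n}.Finite := by
  have h : (((Finset.range (2 * n + 2)).powerset : Finset (Finset ℕ)) : Set (Finset ℕ)).Finite :=
    Finset.finite_toSet _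
  refine Set.Finite.of_finite_image (f := lab) (h.subset ?_) ?_
  · rintro S ⟨i, hi, rfl⟩
    have h3 := lab_subset i
    rw [show blk i = n from hi] at h3
    exact Finset.mem_coe.2 (Finset.mem_powerset.2 h3)
  · intro i hi j hj hij
    apply enum.injective
    apply Subtype.ext
    exact Prod.ext ((show blk i = n from hi).trans (show blk j = n from hj).symm) hij

theorem blk_le_finite (t : ℕ) : {i | blk i ≤ t}.Finite := by
  have : {i | blk i ≤ t} = ⋃ n ∈ Finset.range (t + 1), {i | blk i = n} := by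
    ext i
    simp only [Set.mem_ofPred_eq, Finset.mem_range, Set.mem_iUnion, exists_prop]
    constructor
    · intro h; exact ⟨blk i, by omega, rfl⟩
    · rintro ⟨n, h1, h2⟩; omega
  rw [this]
  exact Set.Finite.biUnion (Finset.finite_toSet _) fun n _ => blk_finite n

/-- In each block there is a label shared by all points of `B` in this block. -/
def Transversal (B : Set ℕ) : Prop := ∀ n, ∃ j, ∀ i ∈ B, blk i = n → j ∈ lab i

theorem Transversal.mono {A B : Set ℕ} (h : A ⊆ B) (hB : Transversal B) : Transversal A := fun n =>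
  let ⟨j, hj⟩ := hB n
  ⟨j, fun i hi hn => hj i (h hi) hn⟩

/-- The family. -/
noncomputable def fam : HereditaryCover where
  sets := {B | (∃ n, ∀ i ∈ B, blk i = n) ∨ Transversal (B : Set ℕ)}
  hereditary := by
    rintro A (⟨n, h⟩ | h) B hBA
    · exact Or.inl ⟨n, fun i hi => h i (hBA hi)⟩
    · exact Or.inr (h.mono (Finset.coe_subset.2 hBA))
  covers := fun n => ⟨{n}, Or.inl ⟨blk n, fun i hi => by rw [Finset.mem_singleton.1 hi]⟩,
    Finset.mem_singleton_self n⟩

/-! ### Property (S*) fails -/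

/-- the `n`-th block -/
noncomputable def G (n : ℕ) : Finset ℕ := (blk_finite n).toFinset

theorem mem_G {n i : ℕ} : i ∈ G n ↔ blk i = n := by
  unfold G
  rw [Set.Finite.mem_toFinset]
  rfl

theorem closure_unique {A : Set ℕ} (hA : A ∈ fam.closure) {m n : ℕ}
    (hm : ¬ ∃ j, ∀ i ∈ A, blk i = m → j ∈ lab i) (hn : ¬ ∃ j, ∀ i ∈ A, blk i = n → j ∈ lab i) :
    m = n := by
  classical
  have key : ∀ n, (¬ ∃ j, ∀ i ∈ A, blk i = n → j ∈ lab i) → ∀ i ∈ A, blk i = n := by
    intro n hn i hi
    by_contra hne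
    apply hn
    let B : Finset ℕ := insert i ((G n).filter (· ∈ A))
    have hB : B ∈ fam.sets := hA B (by
      intro k hk
      rcases Finset.mem_insert.1 (Finset.mem_coe.1 hk) with h | h
      · rw [h]; exact hi
      · exact (Finset.mem_filter.1 h).2)
    rcases hB with ⟨l, hl⟩ | hB
    · have h1 := hl i (Finset.mem_insert_self _ _)
      refine ⟨0, fun k hk hkn => ?_⟩
      have h2 := hl k (Finset.mem_insert_of_mem (Finset.mem_filter.2 ⟨mem_G.2 hkn, hk⟩))
      omega
    · obtain ⟨j, hj⟩ := hB n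
      refine ⟨j, fun k hk hkn => hj k ?_ hkn⟩
      exact Finset.mem_coe.2 (Finset.mem_insert_of_mem (Finset.mem_filter.2 ⟨mem_G.2 hkn, hk⟩))
  have hne : A.Nonempty := by
    by_contra h
    apply hm
    rw [Set.not_nonempty_iff_eq_empty] at h
    refine ⟨0, fun i hi _ => ?_⟩
    rw [h] at hi
    exact absurd hi (Set.notMem_empty i)
  obtain ⟨i, hi⟩ := hne
  rw [← key m hm i hi, ← key n hn i hi]

theorem not_sstar : ¬ PropertySStar fam := by
  classical
  intro h
  obtain ⟨𝒜, hA, hinf⟩ := h G (fun n => Or.inl ⟨n, fun i hi => mem_G.1 hi⟩) (by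
    intro m n hmn
    rw [Finset.disjoint_left]
    intro i hi hi'
    exact hmn ((mem_G.1 hi).symm.trans (mem_G.1 hi')))
  -- the exceptional blocks
  let bad : Set ℕ := ⋃ A ∈ 𝒜, {n | ¬ ∃ j, ∀ i ∈ A, blk i = n → j ∈ lab i}
  have hbad : bad.Finite := by
    refine Set.Finite.biUnion (Finset.finite_toSet _) fun A hA' => ?_
    refine Set.Subsingleton.finite ?_
    intro m hm n hn
    exact closure_unique (hA A hA') hm hn
  obtain ⟨n, hn, hnot⟩ := (hinf.sdiff (hbad.union (Set.finite_Iio 𝒜.card))).nonempty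
  have hnb : n ∉ bad := fun h => hnot (Or.inl h)
  have hcard : 𝒜.card ≤ n := by
    by_contra hc
    exact hnot (Or.inr (not_le.1 hc))
  have hj : ∀ A : Set ℕ, A ∈ 𝒜 → ∃ j, ∀ i ∈ A, blk i = n → j ∈ lab i := by
    intro A hA'
    by_contra hc
    exact hnb (Set.mem_biUnion hA' hc)
  choose! j hj using hj
  let J : Finset ℕ := 𝒜.image j
  have hJ : J.card ≤ n := Finset.card_image_le.trans hcard
  obtain ⟨i, hi1, hi2⟩ := exists_pt n (Finset.range (2 * n + 2) \ J) Finset.sdiff_subset (by
    have := Finset.le_card_sdiff J (Finset.range (2 * n + 2))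
    rw [Finset.card_range] at this
    omega)
  have h1 : i ∈ ⋃ A ∈ 𝒜, A := hn (Finset.mem_coe.2 (mem_G.2 hi1))
  simp only [Set.mem_iUnion, exists_prop] at h1
  obtain ⟨A, hA1, hA2⟩ := h1
  have h2 := hj A hA1 i hA2 hi1
  rw [hi2] at h2
  exact (Finset.mem_sdiff.1 h2).2 (Finset.mem_image_of_mem j hA1)

/-! ### The Schur property -/

/-- every member of the family contains a transversal set of half its mass -/
theorem exists_half {B : Finset ℕ} (hB : B ∈ fam.sets) (w : ℕ → ℝ) (hw : ∀ i, 0 ≤ w i) :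
    ∃ D ⊆ B, Transversal (D : Set ℕ) ∧ (∑ i ∈ B, w i) / 2 ≤ ∑ i ∈ D, w i := by
  classical
  rcases hB with ⟨n, hn⟩ | hB
  · have hdouble : ∑ j ∈ Finset.range (2 * n + 2), ∑ i ∈ B.filter (fun i => j ∈ lab i), w i =
        ∑ i ∈ B, ((lab i).card : ℝ) * w i := by
      simp_rw [Finset.sum_filter]
      rw [Finset.sum_comm]
      refine Finset.sum_congr rfl fun i hi => ?_
      rw [← Finset.sum_filter, Finset.sum_const, nsmul_eq_mul]
      congr 3
      ext k
      rw [Finset.mem_filter]
      constructor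
      · exact fun h => h.2
      · intro h
        have := lab_subset i h
        rw [hn i hi] at this
        exact ⟨this, h⟩
    have hge : ((n : ℝ) + 1) * ∑ i ∈ B, w i ≤ ∑ i ∈ B, ((lab i).card : ℝ) * w i := by
      rw [Finset.mul_sum]
      refine Finset.sum_le_sum fun i hi => mul_le_mul_of_nonneg_right ?_ (hw i)
      have := lab_card i
      rw [hn i hi] at this
      exact_mod_cast this
    obtain ⟨j, hj, hj2⟩ : ∃ j ∈ Finset.range (2 * n + 2),
        (∑ i ∈ B, w i) / 2 ≤ ∑ i ∈ B.filter (fun i => j ∈ lab i), w i := by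
      by_contra hc
      push Not at hc
      have h1 : ∑ j ∈ Finset.range (2 * n + 2), ∑ i ∈ B.filter (fun i => j ∈ lab i), w i <
          ∑ _j ∈ Finset.range (2 * n + 2), (∑ i ∈ B, w i) / 2 :=
        Finset.sum_lt_sum_of_nonempty ⟨0, Finset.mem_range.2 (by omega)⟩ hc
      rw [Finset.sum_const, Finset.card_range, nsmul_eq_mul, hdouble] at h1
      push_cast at h1
      nlinarith
    refine ⟨_, Finset.filter_subset _ _, ?_, hj2⟩
    intro m
    refine ⟨j, fun i hi _ => ?_⟩
    exact (Finset.mem_filter.1 (Finset.mem_coe.1 hi)).2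
  · refine ⟨B, subset_rfl, hB, ?_⟩
    have : 0 ≤ ∑ i ∈ B, w i := Finset.sum_nonneg fun i _ => hw i
    linarith

theorem abs_sign_le (r : ℝ) : |((SignType.sign r : SignType) : ℝ)| ≤ 1 := by
  rcases lt_trichotomy r 0 with h | h | h
  · rw [sign_neg h]; simp
  · rw [h, sign_zero]; simp
  · rw [sign_pos h]; simp

/-- one step of the gliding hump -/
theorem step (x : ℕ → CombSpace fam) (hx : ∀ i, Tendsto (fun m => (x m).val i) atTop (𝓝 0))
    {δ : ℝ} (hδ : 0 < δ) (hinf : ∀ m, ∃ m' > m, δ < ‖x m'‖) (m t : ℕ) :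
    ∃ m' t', m < m' ∧ t < t' ∧ δ < ‖x m'‖ ∧
      (∀ A ∈ fam.sets, (∀ k ∈ A, blk k ≤ t) → ∑ k ∈ A, |(x m').val k| ≤ δ / 16) ∧
      (∀ A ∈ fam.sets, (∀ k ∈ A, t' < blk k) → ∑ k ∈ A, |(x m').val k| ≤ δ / 16) := by
  have h1 : Tendsto (fun m => ∑ i ∈ (blk_le_finite t).toFinset, |(x m).val i|) atTop (𝓝 0) := by
    have : Tendsto (fun m => ∑ i ∈ (blk_le_finite t).toFinset, |(x m).val i|) atTop
        (𝓝 (∑ i ∈ (blk_le_finite t).toFinset, |(0 : ℝ)|)) :=
      tendsto_finsetSum _ fun i _ => (hx i).abs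
    simpa using this
  obtain ⟨M, hM⟩ := eventually_atTop.1 ((tendsto_order.1 h1).2 (δ / 16) (by positivity))
  obtain ⟨m', hm', hm2⟩ := hinf (max m M)
  obtain ⟨N, hN⟩ := tail_small (x m') (ε := δ / 16) (by positivity)
  -- all `i < N` lie in the first blocks
  obtain ⟨t', ht'⟩ : ∃ t', ∀ i < N, blk i ≤ t' :=
    ⟨(Finset.range N).sup blk, fun i hi => Finset.le_sup (Finset.mem_range.2 hi)⟩
  refine ⟨m', max t' (t + 1), lt_of_le_of_lt (le_max_left _ _) hm',
    lt_of_lt_of_le (Nat.lt_succ_self t) (le_max_right _ _), hm2, ?_, ?_⟩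
  · intro A _ hA
    refine le_trans ?_ (hM m' ((le_max_right m M).trans hm'.le)).le
    refine Finset.sum_le_sum_of_subset_of_nonneg ?_ fun _ _ _ => abs_nonneg _
    intro k hk
    rw [Set.Finite.mem_toFinset]
    exact hA k hk
  · intro A hA hAt
    refine hN A hA fun k hk => ?_
    by_contra hc
    have := ht' k (not_le.1 hc)
    have := hAt k hk
    have := le_max_left t' (t + 1)
    omega

theorem no_hump (x : ℕ → CombSpace fam)
    (hw : ∀ f : StrongDual ℝ (CombSpace fam), Tendsto (fun n => f (x n)) atTop (𝓝 0))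
    {δ : ℝ} (hδ : 0 < δ) (hinf : ∀ m, ∃ m' > m, δ < ‖x m'‖) : False := by
  classical
  have hx : ∀ i, Tendsto (fun m => (x m).val i) atTop (𝓝 0) := by
    intro i
    have hA : ({i} : Set ℕ) ∈ fam.closure := by
      intro B hB
      refine fam.hereditary _ (singleton_mem fam i) _ ?_
      intro k hk
      exact Finset.mem_singleton.2 (hB (Finset.mem_coe.2 hk))
    have h := hw (functional hA (g := fun k => if k = i then 1 else 0)
      (by intro k; split_ifs <;> simp)
      (by intro k hk; rw [if_neg (fun h => hk (Set.mem_singleton_iff.2 h))]))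
    refine h.congr fun n => ?_
    rw [functional_apply, tsum_eq_single i]
    · simp
    · intro b hb; simp [hb]
  choose M T h1 h2 h3 h4 h5 using step x hx hδ hinf
  -- the sequence of indices
  obtain ⟨m, t, hm, ht, hn, hlow, hhigh⟩ : ∃ m t : ℕ → ℕ, (∀ k, m k < m (k + 1)) ∧
      (∀ k, t k < t (k + 1)) ∧ (∀ k, δ < ‖x (m (k + 1))‖) ∧
      (∀ k, ∀ A ∈ fam.sets, (∀ i ∈ A, blk i ≤ t k) →
        ∑ i ∈ A, |(x (m (k + 1))).val i| ≤ δ / 16) ∧
      (∀ k, ∀ A ∈ fam.sets, (∀ i ∈ A, t (k + 1) < blk i) →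
        ∑ i ∈ A, |(x (m (k + 1))).val i| ≤ δ / 16) := by
    let s : ℕ → ℕ × ℕ := fun k => Nat.rec (0, 0) (fun _ p => (M p.1 p.2, T p.1 p.2)) k
    exact ⟨fun k => (s k).1, fun k => (s k).2, fun k => h1 _ _, fun k => h2 _ _, fun k => h3 _ _,
      fun k => h4 _ _, fun k => h5 _ _⟩
  have htm : StrictMono t := strictMono_nat_of_lt_succ ht
  have hmm : StrictMono m := strictMono_nat_of_lt_succ hm
  -- the pieces
  have hD : ∀ k, ∃ D : Finset ℕ, Transversal (D : Set ℕ) ∧
      (∀ i ∈ D, t k < blk i ∧ blk i ≤ t (k + 1)) ∧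
      3 * δ / 8 ≤ ∑ i ∈ D, |(x (m (k + 1))).val i| := by
    intro k
    obtain ⟨A, hA, hAs⟩ := exists_lt_sum _ (hn k)
    let B := A.filter (fun i => t k < blk i ∧ blk i ≤ t (k + 1))
    have hBs : B ∈ fam.sets := fam.hereditary A hA _ (Finset.filter_subset _ _)
    obtain ⟨D, hD1, hD2, hD3⟩ := exists_half hBs (fun i => |(x (m (k + 1))).val i|)
      fun _ => abs_nonneg _
    refine ⟨D, hD2, fun i hi => (Finset.mem_filter.1 (hD1 hi)).2, ?_⟩
    have e1 := hlow k (A.filter fun i => blk i ≤ t k)
      (fam.hereditary A hA _ (Finset.filter_subset _ _)) fun i hi => (Finset.mem_filter.1 hi).2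
    have e2 := hhigh k (A.filter fun i => t (k + 1) < blk i)
      (fam.hereditary A hA _ (Finset.filter_subset _ _)) fun i hi => (Finset.mem_filter.1 hi).2
    have e3 : ∑ i ∈ A, |(x (m (k + 1))).val i| ≤
        ∑ i ∈ A.filter (fun i => blk i ≤ t k), |(x (m (k + 1))).val i| +
        ∑ i ∈ B, |(x (m (k + 1))).val i| +
        ∑ i ∈ A.filter (fun i => t (k + 1) < blk i), |(x (m (k + 1))).val i| := by
      rw [Finset.sum_filter, Finset.sum_filter, Finset.sum_filter, ← Finset.sum_add_distrib,
        ← Finset.sum_add_distrib]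
      refine Finset.sum_le_sum fun i _ => ?_
      have := abs_nonneg ((x (m (k + 1))).val i)
      have h6 : t k < t (k + 1) := ht k
      by_cases c1 : blk i ≤ t k
      · rw [if_pos c1, if_neg (by omega), if_neg (by omega)]; linarith
      · by_cases c2 : blk i ≤ t (k + 1)
        · rw [if_neg c1, if_pos (by omega), if_neg (by omega)]; linarith
        · rw [if_neg c1, if_neg (by omega), if_pos (by omega)]; linarith
    linarith
  choose D hD1 hD2 hD3 using hD
  let A : Set ℕ := ⋃ k, (D k : Set ℕ)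
  have hAt : Transversal A := by
    intro n
    by_cases hc : ∃ k, ∃ i ∈ D k, blk i = n
    · obtain ⟨k, i0, hi0, hi0n⟩ := hc
      obtain ⟨j, hj⟩ := hD1 k n
      refine ⟨j, fun i hi hin => ?_⟩
      obtain ⟨l, hl⟩ := Set.mem_iUnion.1 hi
      have e1 := hD2 k i0 hi0
      have e2 := hD2 l i (Finset.mem_coe.1 hl)
      rw [hi0n] at e1
      rw [hin] at e2
      have hkl : k = l := by
        rcases lt_trichotomy k l with h | h | h
        · have := htm.monotone (Nat.succ_le_of_lt h)
          have e3 : t (k + 1) ≤ t l := this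
          omega
        · exact h
        · have := htm.monotone (Nat.succ_le_of_lt h)
          have e3 : t (l + 1) ≤ t k := this
          omega
      rw [← hkl] at hl
      exact hj i hl hin
    · refine ⟨0, fun i hi hin => ?_⟩
      obtain ⟨l, hl⟩ := Set.mem_iUnion.1 hi
      exact absurd ⟨l, i, Finset.mem_coe.1 hl, hin⟩ hc
  have hAc : A ∈ fam.closure := fun B hB => Or.inr (hAt.mono hB)
  -- the sign function
  have hidx : ∀ i ∈ A, ∃ k, i ∈ D k := fun i hi => by
    obtain ⟨k, hk⟩ := Set.mem_iUnion.1 hi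
    exact ⟨k, Finset.mem_coe.1 hk⟩
  have huniq : ∀ i k l, i ∈ D k → i ∈ D l → k = l := by
    intro i k l hk hl
    have e1 := hD2 k i hk
    have e2 := hD2 l i hl
    rcases lt_trichotomy k l with h | h | h
    · have e3 : t (k + 1) ≤ t l := htm.monotone (Nat.succ_le_of_lt h)
      omega
    · exact h
    · have e3 : t (l + 1) ≤ t k := htm.monotone (Nat.succ_le_of_lt h)
      omega
  obtain ⟨g, hg1, hg2, hg3⟩ : ∃ g : ℕ → ℝ, (∀ i, |g i| ≤ 1) ∧ (∀ i, i ∉ A → g i = 0) ∧
      ∀ k, ∀ i ∈ D k, g i * (x (m (k + 1))).val i = |(x (m (k + 1))).val i| := by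
    let idx : ℕ → ℕ := fun i => if h : ∃ k, i ∈ D k then h.choose else 0
    have hidx2 : ∀ k, ∀ i ∈ D k, idx i = k := by
      intro k i hi
      have h : ∃ k, i ∈ D k := ⟨k, hi⟩
      have e : idx i = h.choose := dif_pos h
      rw [e]
      exact huniq i _ _ h.choose_spec hi
    refine ⟨fun i => if i ∈ A then ((SignType.sign ((x (m (idx i + 1))).val i) : SignType) : ℝ)
      else 0, ?_, fun i hi => if_neg hi, ?_⟩
    · intro i
      dsimp only
      split_ifs
      · exact abs_sign_le _
      · simp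
    · intro k i hi
      have hiA : i ∈ A := Set.mem_iUnion.2 ⟨k, Finset.mem_coe.2 hi⟩
      dsimp only
      rw [if_pos hiA, hidx2 k i hi]
      exact sign_mul_self _
  have hf := hw (functional hAc hg1 hg2)
  have hsub : Tendsto (fun k => functional hAc hg1 hg2 (x (m (k + 1)))) atTop (𝓝 0) :=
    hf.comp (hmm.tendsto_atTop.comp (tendsto_add_atTop_nat 1))
  obtain ⟨k, hk⟩ := ((tendsto_order.1 hsub).2 (δ / 8) (by positivity)).exists
  -- lower bound for the value of the functional
  obtain ⟨y, hy⟩ : ∃ y, y = x (m (k + 1)) := ⟨_, rfl⟩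
  have hlow' := hlow k
  have hhigh' := hhigh k
  have hg3' := hg3 k
  have h7 := hD3 k
  rw [← hy] at hk hlow' hhigh' hg3' h7
  have hsum : Summable fun i => g i * y.val i := (summable_of_closure y hAc hg1 hg2).1
  have hDk : ∑ i ∈ D k, g i * y.val i = ∑ i ∈ D k, |y.val i| :=
    Finset.sum_congr rfl fun i hi => hg3' i hi
  have hrest : |∑' i : {i // i ∉ D k}, g i * y.val i| ≤ δ / 8 := by
    have hsum2 : Summable fun i : {i // i ∉ D k} => |g i * y.val i| := hsum.abs.subtype _
    have hsum3 : Summable fun i : {i // i ∉ D k} => ‖g i * y.val i‖ := hsum2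
    refine (norm_tsum_le_tsum_norm hsum3).trans ?_
    refine hsum2.tsum_le_of_sum_le fun S => ?_
    let S' : Finset ℕ := S.map (Function.Embedding.subtype _)
    have e0 : ∑ i ∈ S, |g i * y.val i| = ∑ i ∈ S', |g i * y.val i| := by
      rw [Finset.sum_map]; rfl
    have hS' : ∀ i ∈ S', i ∉ D k := by
      intro i hi
      obtain ⟨a, _, rfl⟩ := Finset.mem_map.1 hi
      exact a.2
    rw [e0]
    have e1 : ∑ i ∈ S', |g i * y.val i| ≤ ∑ i ∈ S'.filter (· ∈ A), |y.val i| := by
      rw [Finset.sum_filter]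
      refine Finset.sum_le_sum fun i _ => ?_
      split_ifs with h
      · rw [abs_mul]; exact mul_le_of_le_one_left (abs_nonneg _) (hg1 i)
      · rw [hg2 i h, zero_mul, abs_zero]
    refine e1.trans ?_
    have hfil : S'.filter (· ∈ A) ∈ fam.sets := hAc _ (by
      intro i hi
      exact (Finset.mem_filter.1 (Finset.mem_coe.1 hi)).2)
    have e2 := hlow' ((S'.filter (· ∈ A)).filter fun i => blk i ≤ t k)
      (fam.hereditary _ hfil _ (Finset.filter_subset _ _)) fun i hi => (Finset.mem_filter.1 hi).2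
    have e3 := hhigh' ((S'.filter (· ∈ A)).filter fun i => t (k + 1) < blk i)
      (fam.hereditary _ hfil _ (Finset.filter_subset _ _)) fun i hi => (Finset.mem_filter.1 hi).2
    have e4 : ∑ i ∈ S'.filter (· ∈ A), |y.val i| ≤
        ∑ i ∈ (S'.filter (· ∈ A)).filter (fun i => blk i ≤ t k), |y.val i| +
        ∑ i ∈ (S'.filter (· ∈ A)).filter (fun i => t (k + 1) < blk i), |y.val i| := by
      rw [Finset.sum_filter (s := S'.filter (· ∈ A)), Finset.sum_filter (s := S'.filter (· ∈ A)),
        ← Finset.sum_add_distrib]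
      refine Finset.sum_le_sum fun i hi => ?_
      have hnn := abs_nonneg (y.val i)
      obtain ⟨hi1, hi2⟩ := Finset.mem_filter.1 hi
      obtain ⟨l, hl⟩ := hidx i hi2
      have hlk : l ≠ k := fun h => hS' i hi1 (h ▸ hl)
      have e5 := hD2 l i hl
      rcases lt_or_gt_of_ne hlk with h | h
      · have e6 : t (l + 1) ≤ t k := htm.monotone (Nat.succ_le_of_lt h)
        rw [if_pos (by omega)]
        split_ifs <;> linarith
      · have e6 : t (k + 1) ≤ t l := htm.monotone (Nat.succ_le_of_lt h)
        rw [if_pos (show t (k + 1) < blk i by omega)]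
        split_ifs <;> linarith
    linarith
  have hval : functional hAc hg1 hg2 y = ∑ i ∈ D k, |y.val i| +
      ∑' i : {i // i ∉ D k}, g i * y.val i := by
    rw [functional_apply, ← hDk]
    exact (hsum.sum_add_tsum_subtype_compl (D k)).symm
  have h8 := abs_le.1 hrest
  rw [hval] at hk
  linarith [h8.1]

theorem schur : SchurProperty (CombSpace fam) := by
  intro x a hxa
  rw [tendsto_iff_norm_sub_tendsto_zero]
  by_contra hc
  rw [Metric.tendsto_atTop] at hc
  push Not at hc
  obtain ⟨ε, hε, hN⟩ := hc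
  refine no_hump (fun n => x n - a) ?_ (δ := ε / 2) (by positivity) ?_
  · intro f
    have h := (hxa f).sub_const (f a)
    rw [sub_self] at h
    refine h.congr fun n => ?_
    rw [map_sub]
  · intro m
    obtain ⟨n, hn, hn2⟩ := hN (m + 1)
    refine ⟨n, hn, ?_⟩
    rw [Real.dist_eq, sub_zero, abs_of_nonneg (norm_nonneg _)] at hn2
    linarith

/-- There is a hereditary family of finite sets covering `ℕ` whose combinatorial space has the Schur
property while the family does not satisfy (S*). -/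
theorem result : ∃ F : HereditaryCover, SchurProperty (CombSpace F) ∧ ¬ PropertySStar F :=
  ⟨fam, schur, not_sstar⟩

end Pool.Agent.Results.MP_8d662a_an.SchurNotSStar
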